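import Pool.Agent.Helper66.PD.Stmts

/-! Row DML of the sheet `Pool.Agent.Helper66.PD.Stmts`. -/

set_option autoImplicit false

namespace Pool.Agent.Helper66.PD

theorem st_DML : ST_DML := by
  intro k n d hd
  obtain ⟨f, hf⟩ := hd
  let X : (Fin k → Fin n) → Q k n := fun a => ⟨U.X a, trivial⟩
  let Y : (Fin k → Fin n) → Q k n := fun a => ⟨U.Y a, trivial⟩
  have hXY : ∀ a b, X a ≤ Y b ↔ a ≠ b := fun a b => Iff.rfl
  have h1 : ∀ a, ∃ i, f (Y a) i < f (X a) i := by
    intro a
    by_contra h
    push Not at h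
    exact (hXY a a).1 ((hf _ _).2 h) rfl
  choose i hi using h1
  have hinj : Function.Injective i := by
    intro a b hab
    by_contra hne
    have e3 : f (X a) (i a) ≤ f (Y b) (i a) := (hf _ _).1 ((hXY a b).2 hne) (i a)
    have e4 : f (X b) (i a) ≤ f (Y a) (i a) := (hf _ _).1 ((hXY b a).2 (Ne.symm hne)) (i a)
    have e5 := hi a
    have e6 := hi b
    rw [← hab] at e6
    omega
  have h2 := Fintype.card_le_of_injective i hinj
  simpa using h2

end Pool.Agent.Helper66.PD
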